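import Pool.Agent.W389.Tur.Lim
import Pool.Agent.W724.TG.Dag

/-!
From covering systems with gap one to `Tur`.
-/

set_option autoImplicit false

namespace Pool.Agent.TH379.Tur

open Finset Pool.Agent.H613T Pool.Agent.H369R2.TD

theorem tur_of_td {r : ℕ} {δ : ℝ} (h : TD 1 r δ) : Tur r δ := by
  intro n
  obtain ⟨F, ⟨h1, h2⟩, h3⟩ := h n
  exact ⟨F, fun Z hZ => (h1 Z hZ).2, fun Y hY => h2 Y (subset_univ _) hY, h3⟩

end Pool.Agent.TH379.Tur
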