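import Pool.Agent.TH379.Tur.Conv
import Pool.Agent.TH379.Tur.P5

/-!
`t(n,6,5) ≤ 0.30251 C(n,5)`, in the form used by the recursions.
-/

set_option autoImplicit false

namespace Pool.Agent.TH379.Tur

open Finset Pool.Agent.H613T Pool.Agent.H369R2.TD

theorem tur_five : Tur 5 (30251/100000) := by
  have h := P5.td (t := 1) (by norm_num) (TD.trivial 1 5)
  exact tur_of_td (h.mono (by norm_num))

end Pool.Agent.TH379.Tur
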